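import Mathlib

namespace Pool.Agent.Results.MP_d17388_co.Counter

open Finset

/-- The hypercube: vertices adjacent iff they differ in exactly one coordinate. -/
def Q (d : ℕ) : SimpleGraph (Fin d → Bool) where
  Adj u v := ∃! i, u i ≠ v i
  symm := ⟨fun _ _ ⟨i, h1, h2⟩ => ⟨i, h1.symm, fun j hj => h2 j hj.symm⟩⟩
  loopless := ⟨fun _ ⟨_, h, _⟩ => h rfl⟩

/-- The filled set after `t` simultaneous forcing steps. -/
def fill {V : Type} (G : SimpleGraph V) (S : Set V) : ℕ → Set V
  | 0 => S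
  | t + 1 => fill G S t ∪ {w | w ∉ fill G S t ∧ ∃ v ∈ fill G S t, G.Adj v w ∧
      ∀ x, G.Adj v x → x ∉ fill G S t → x = w}

def Forcing {V : Type} (G : SimpleGraph V) (S : Set V) : Prop := ∃ t, fill G S t = Set.univ

def MinForcing {V : Type} (G : SimpleGraph V) (S : Finset V) : Prop :=
  Forcing G S ∧ ∀ T : Finset V, Forcing G T → S.card ≤ T.card

/-- Propagation time of a zero forcing set. -/
noncomputable def pt {V : Type} (G : SimpleGraph V) (S : Set V) : ℕ :=
  sInf {t | fill G S t = Set.univ}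

abbrev V := Fin 6 → Bool

def fl (i : Fin 6) (u : V) : V := fun j => if j = i then !u j else u j

lemma adj_iff (u v : V) : (Q 6).Adj u v ↔ ∃ i, v = fl i u := by
  constructor
  · rintro ⟨i, h1, h2⟩
    refine ⟨i, funext fun j => ?_⟩
    by_cases e : j = i
    · subst e
      simp only [fl, if_true]
      revert h1
      cases u j <;> cases v j <;> simp
    · simp only [fl, e, if_false]
      by_contra h
      exact e (h2 j (Ne.symm h))
  · rintro ⟨i, rfl⟩
    refine ⟨i, by simp [fl], fun j hj => ?_⟩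
    by_contra e
    simp [fl, e] at hj

lemma fl_fl (i : Fin 6) (u : V) : fl i (fl i u) = u := by
  funext j; by_cases e : j = i <;> simp [fl, e]

lemma fl_comm (i j : Fin 6) (u : V) : fl i (fl j u) = fl j (fl i u) := by
  funext k; by_cases e : k = i <;> by_cases e' : k = j <;> simp_all [fl]

lemma fl_inj {i j : Fin 6} {u : V} (h : fl i u = fl j u) : i = j := by
  by_contra e
  have := congrFun h i
  simp [fl, e] at this

lemma eta (u : V) : u = ![u 0, u 1, u 2, u 3, u 4, u 5] := by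
  funext i; fin_cases i <;> rfl

def sg (u : V) (i : Fin 6) : ℤ := ∏ j : Fin 6, if j < i ∧ u j then -1 else 1

lemma sg_rel (u : V) (i j : Fin 6) : sg u i * sg (fl i u) j + sg u j * sg (fl j u) i =
    if i = j then 2 else 0 := by
  have : ∀ a b c d e f : Bool, ∀ i j : Fin 6, sg ![a, b, c, d, e, f] i *
      sg (fl i ![a, b, c, d, e, f]) j + sg ![a, b, c, d, e, f] j *
        sg (fl j ![a, b, c, d, e, f]) i = if i = j then 2 else 0 := by decide +kernel
  rw [eta u]; exact this _ _ _ _ _ _ i j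

lemma sg_ne (u : V) (i : Fin 6) : sg u i ≠ 0 := by
  intro h
  have := sg_rel u i i
  simp [h] at this

noncomputable def A : (V → ℝ) →ₗ[ℝ] (V → ℝ) where
  toFun x u := ∑ i, (sg u i : ℝ) * x (fl i u)
  map_add' x y := by funext u; simp [mul_add, sum_add_distrib]
  map_smul' c x := by funext u; simp [mul_sum, mul_left_comm]

lemma A_apply (x : V → ℝ) (u : V) : A x u = ∑ i, (sg u i : ℝ) * x (fl i u) := rfl

lemma A_sq (x : V → ℝ) (u : V) : A (A x) u = 6 * x u := by
  have e : A (A x) u = ∑ i, ∑ j, ((sg u i * sg (fl i u) j : ℤ) : ℝ) * x (fl j (fl i u)) := by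
    simp only [A_apply, mul_sum, Int.cast_mul, mul_assoc]
  have e2 : A (A x) u = ∑ i, ∑ j, ((sg u j * sg (fl j u) i : ℤ) : ℝ) * x (fl j (fl i u)) := by
    rw [e, sum_comm]
    simp only [fl_comm]
  have : 2 * A (A x) u = ∑ i : Fin 6, 2 * x u := by
    rw [two_mul]
    nth_rewrite 1 [e]
    rw [e2, ← sum_add_distrib]
    refine sum_congr rfl fun i _ => ?_
    rw [← sum_add_distrib]
    simp only [← add_mul, ← Int.cast_add, sg_rel]
    rw [sum_eq_single i (fun j _ hj => by simp [Ne.symm hj]) (by simp)]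
    simp [fl_fl]
  simp only [sum_const, card_univ, Fintype.card_fin, nsmul_eq_mul] at this
  push_cast at this
  linarith

noncomputable def B : ((Fin 5 → Bool) → ℝ) →ₗ[ℝ] (V → ℝ) where
  toFun y u := if u 0 then y (Fin.tail u) else 0
  map_add' x y := by funext u; by_cases h : u 0 <;> simp [h]
  map_smul' c x := by funext u; by_cases h : u 0 <;> simp [h]

lemma B_apply (y : (Fin 5 → Bool) → ℝ) (u : V) : B y u = if u 0 then y (Fin.tail u) else 0 := rfl

lemma lower (T : Finset V) (h : Forcing (Q 6) T) : 32 ≤ T.card := by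
  by_contra hlt
  let N : ((Fin 5 → Bool) → ℝ) →ₗ[ℝ] (V → ℝ) := A ∘ₗ B + √6 • B
  let R : ((Fin 5 → Bool) → ℝ) →ₗ[ℝ] (T → ℝ) := LinearMap.funLeft ℝ ℝ Subtype.val ∘ₗ N
  have hk : LinearMap.ker R ≠ ⊥ := LinearMap.ker_ne_bot_of_finrank_lt (by simp; omega)
  obtain ⟨y, hy, hy0⟩ := Submodule.exists_mem_ne_zero_of_ne_bot hk
  have hN : ∀ u, A (N y) u = √6 * N y u := by
    intro u
    have h6 : √6 * √6 = (6 : ℝ) := Real.mul_self_sqrt (by norm_num)
    simp only [N, LinearMap.add_apply, LinearMap.comp_apply, LinearMap.smul_apply, map_add,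
      map_smul, Pi.add_apply, Pi.smul_apply, smul_eq_mul, A_sq]
    rw [mul_add, ← mul_assoc, h6]; ring
  have hz : ∀ t, ∀ u ∈ fill (Q 6) T t, N y u = 0 := by
    intro t
    induction t with
    | zero => intro u hu; exact congrFun hy ⟨u, hu⟩
    | succ t ih =>
      rintro w (hw | ⟨-, v, hv, hadj, huniq⟩)
      · exact ih w hw
      obtain ⟨i, rfl⟩ := (adj_iff _ _).1 hadj
      have := hN v
      rw [ih v hv, mul_zero, A_apply, sum_eq_single i _ (by simp)] at this
      · exact (mul_eq_zero.1 this).resolve_left (by exact_mod_cast sg_ne v i)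
      · intro j _ hj
        rw [ih (fl j v), mul_zero]
        by_contra hh
        exact hj (fl_inj (huniq _ ((adj_iff _ _).2 ⟨j, rfl⟩) hh))
  obtain ⟨t, ht⟩ := h
  apply hy0
  funext z
  have := hz t (Fin.cons false z) (by rw [ht]; trivial)
  simp only [N, LinearMap.add_apply, LinearMap.comp_apply, LinearMap.smul_apply, Pi.add_apply,
    Pi.smul_apply, A_apply, B_apply] at this
  rw [sum_eq_single 0 (fun j _ hj => by simp [fl, Ne.symm hj]) (by simp)] at this
  have e : Fin.tail (fl 0 (Fin.cons false z : V)) = z := by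
    funext j; simp [Fin.tail, fl]
  rw [e] at this
  simpa [fl, sg] using this

def idx (u : V) : ℕ := (u 0).toNat + 2 * (u 1).toNat + 4 * (u 2).toNat + 8 * (u 3).toNat +
  16 * (u 4).toNat + 32 * (u 5).toNat

def tau (u : V) : ℕ := [0, 0, 0, 0, 2, 18, 17, 13, 0, 17, 16, 13, 0, 0, 0, 18, 0, 16, 14, 12, 0, 0, 0, 17, 15, 6, 14, 0, 3, 0, 14, 0, 1, 0, 0, 11, 17, 12, 9, 0, 16, 0, 10, 12, 4, 18, 0, 0, 0, 0, 0, 0, 0, 17, 0, 8, 0, 0, 13, 7, 0, 5, 0, 0].getD (idx u) 0

def S : Finset V := univ.filter fun u => tau u = 0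

lemma rule (t : ℕ) (ht : t < 18) (w : V) : tau w ≤ t + 1 ↔ tau w ≤ t ∨
    ∃ i, tau (fl i w) ≤ t ∧ ∀ j, j ≠ i → tau (fl j (fl i w)) ≤ t := by
  have : ∀ t < 18, ∀ a b c d e f : Bool, tau ![a, b, c, d, e, f] ≤ t + 1 ↔
      tau ![a, b, c, d, e, f] ≤ t ∨ ∃ i, tau (fl i ![a, b, c, d, e, f]) ≤ t ∧
        ∀ j, j ≠ i → tau (fl j (fl i ![a, b, c, d, e, f])) ≤ t := by decide +kernel
  rw [eta w]; exact this t ht _ _ _ _ _ _

lemma fill_eq (t : ℕ) (ht : t ≤ 18) : fill (Q 6) S t = {u | tau u ≤ t} := by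
  induction t with
  | zero => ext u; simp [fill, S]
  | succ t ih =>
    ext w
    simp only [fill, ih (by omega), Set.mem_union, Set.mem_setOf_eq, rule t (by omega) w]
    by_cases hw : tau w ≤ t
    · simp [hw]
    simp only [hw, false_or, not_false_eq_true, true_and]
    constructor
    · rintro ⟨v, hv, hadj, hu⟩
      obtain ⟨i, rfl⟩ := (adj_iff _ _).1 hadj
      refine ⟨i, by rwa [fl_fl], fun j hj => ?_⟩
      rw [fl_fl]
      by_contra hh
      exact hj (fl_inj (hu _ ((adj_iff _ _).2 ⟨j, rfl⟩) hh))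
    · rintro ⟨i, h1, h2⟩
      refine ⟨fl i w, h1, (adj_iff _ _).2 ⟨i, (fl_fl _ _).symm⟩, fun x hx hx' => ?_⟩
      obtain ⟨j, rfl⟩ := (adj_iff _ _).1 hx
      by_cases e : j = i
      · rw [e, fl_fl]
      · exact absurd (h2 j e) hx'

theorem result : ∃ S : Finset (Fin 6 → Bool), MinForcing (Q 6) S ∧ pt (Q 6) S = 18 ∧
    2 ^ (6 - 2) < pt (Q 6) S := by
  have h18 : fill (Q 6) S 18 = Set.univ := by
    rw [fill_eq 18 le_rfl]
    have : ∀ u : V, tau u ≤ 18 := by decide +kernel
    exact Set.eq_univ_of_forall this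
  have hc : S.card = 32 := by decide +kernel
  have hp : pt (Q 6) S = 18 := by
    apply le_antisymm (Nat.sInf_le h18)
    refine le_csInf ⟨18, h18⟩ fun t ht => ?_
    by_contra hlt
    obtain ⟨u, hu⟩ : ∃ u : V, tau u = 18 := by decide +kernel
    have : u ∈ fill (Q 6) S t := by rw [show fill (Q 6) S t = Set.univ from ht]; trivial
    rw [fill_eq t (by omega)] at this
    simp only [Set.mem_setOf_eq] at this
    omega
  exact ⟨S, ⟨⟨18, h18⟩, fun T hT => hc ▸ lower T hT⟩, hp, by rw [hp]; norm_num⟩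

end Pool.Agent.Results.MP_d17388_co.Counter
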